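import Mathlib

namespace Pool.Agent.Results.MP_bdd522_nt.FailsAtFive

open Finset

/-- `T_n(b,c)`, the coefficient of `t^n` in `(t^2+bt+c)^n` -/
def T (b c : ℤ) (n : ℕ) : ℤ :=
  ∑ j ∈ range (n / 2 + 1), (n.choose (2 * j) : ℤ) * ((2 * j).choose j : ℤ) * c ^ j * b ^ (n - 2 * j)

/-- The second congruence of (b) fails for `p = 5`. -/
theorem result : ∃ p : ℕ, ∃ _ : Fact p.Prime, 3 < p ∧
    ¬ ∃ r : ℚ, ¬ p ∣ r.den ∧
      (∑ k ∈ range p, (3 * (k : ℚ) + 1) * (T 2 3 k : ℚ) ^ 3 * ((-64 : ℚ) ^ k)⁻¹) -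
        (p : ℚ) * (legendreSym p (-2) : ℚ) = (p : ℚ) ^ 3 * r := by
  have F : Fact (Nat.Prime 5) := ⟨by norm_num⟩
  refine ⟨5, F, by norm_num, ?_⟩
  rintro ⟨r, hr, h⟩
  have hl : legendreSym 5 (-2) = -1 := by norm_num
  have t0 : T 2 3 0 = 1 := by decide
  have t1 : T 2 3 1 = 2 := by decide
  have t2 : T 2 3 2 = 10 := by decide
  have t3 : T 2 3 3 = 44 := by decide
  have t4 : T 2 3 4 = 214 := by decide
  rw [hl] at h
  simp only [sum_range_succ, sum_range_zero, t0, t1, t2, t3, t4] at h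
  have h2 : r = 969167 / 10485760 := by
    norm_num at h
    linarith
  apply hr
  rw [h2]
  decide +kernel

end Pool.Agent.Results.MP_bdd522_nt.FailsAtFive
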